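import Mathlib

open Finset

namespace Pool.Agent.Results.MP_7d0087_nt.Fails

def bin (a : ℚ) (k : ℕ) : ℚ := (∏ i ∈ range k, (a - i)) / k.factorial

def Cg (p m : ℕ) (u v : ℚ) : Prop := (p : ℤ) ^ m ∣ (u - v).num

def S (p : ℕ) : ℚ := ∑ k ∈ range p, bin (-1 / 2) k * bin (-1 / 3) k / (-4) ^ k

theorem result : ¬ ∀ p : ℕ, p.Prime → 5 < p →
    (∀ A B : ℤ, p % 3 = 1 → (p : ℤ) = A ^ 2 + 3 * B ^ 2 → A % 3 = 1 → 5 ∣ A * B →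
      Cg p 2 (S p) (jacobiSym p 5 * (2 * A - p / (2 * A)))) ∧
    (∀ A B : ℤ, p % 3 = 1 → (p : ℤ) = A ^ 2 + 3 * B ^ 2 → A % 3 = 1 → ¬ 5 ∣ B →
      (5 ∣ A + B ∨ 5 ∣ A + 2 * B) →
      Cg p 2 (S p) (jacobiSym p 5 * (A + 3 * B - p / (A + 3 * B)))) ∧
    (p % 3 = 2 → Cg p 1 (S p) 0) := by
  intro h
  have h1 := (h 7 (by norm_num) (by norm_num)).2.1 (-2) 1 rfl (by norm_num) (by norm_num)
    (by norm_num) (by norm_num)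
  have hj : jacobiSym ((7 : ℕ) : ℤ) 5 = -1 := by norm_num
  rw [hj] at h1
  revert h1
  unfold Cg S bin
  decide +kernel

end Pool.Agent.Results.MP_7d0087_nt.Fails
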